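import Pool.Agent.Q7.LS.Stm
import Pool.Agent.Q224.LK.CR2LA

/-!
Project LS (helper7), job SPL: primes above a completely split prime.
-/

set_option autoImplicit false

namespace Pool.Agent.Q77.LS

open NumberField IsDedekindDomain
open Pool.Agent.Q7.LK Pool.Agent.Q7.LS
open Pool.Agent.Y682 (vv vv_coe exists_approx)
open Pool.Agent.Q285.LK (cpl_coe)
open Pool.Agent.Q224.LK (exists_emb int_le galois_cyclic)

section

variable {F L : Type} [Field F] [NumberField F] [Field L] [NumberField L] [Algebra F L]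
  {v : HeightOneSpectrum (𝓞 F)}

/-- the prime ideal of an embedding -/
noncomputable def idl (τ : L →ₐ[F] v.adicCompletion F) : Ideal (𝓞 L) where
  carrier := {x | vv v (τ (x : L)) < 1}
  zero_mem' := by
    simp
  add_mem' := by
    intro a b ha hb
    have e : ((a + b : 𝓞 L) : L) = (a : L) + (b : L) := map_add (algebraMap (𝓞 L) L) a b
    change vv v (τ ((a + b : 𝓞 L) : L)) < 1
    rw [e, map_add]
    exact (Valuation.map_add _ _ _).trans_lt (max_lt ha hb)
  smul_mem' := by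
    intro c a ha
    have e : ((c • a : 𝓞 L) : L) = (c : L) * (a : L) := map_mul (algebraMap (𝓞 L) L) c a
    change vv v (τ ((c • a : 𝓞 L) : L)) < 1
    rw [e, map_mul, map_mul]
    exact (mul_le_of_le_one_left' (int_le τ c)).trans_lt ha

theorem mem_idl (τ : L →ₐ[F] v.adicCompletion F) (x : 𝓞 L) : x ∈ idl τ ↔ vv v (τ (x : L)) < 1 := Iff.rfl

theorem idl_prime (τ : L →ₐ[F] v.adicCompletion F) : (idl τ).IsPrime := by
  refine ⟨?_, ?_⟩
  · intro h
    have h1 : (1 : 𝓞 L) ∈ idl τ := by rw [h]; trivial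
    rw [mem_idl] at h1
    have e : ((1 : 𝓞 L) : L) = 1 := map_one (algebraMap (𝓞 L) L)
    rw [e, map_one, map_one] at h1
    exact lt_irrefl _ h1
  · intro a b hab
    rw [mem_idl] at hab
    have e : ((a * b : 𝓞 L) : L) = (a : L) * (b : L) := map_mul (algebraMap (𝓞 L) L) a b
    rw [e, map_mul, map_mul] at hab
    by_contra hcon
    push Not at hcon
    rw [mem_idl, mem_idl, not_lt, not_lt] at hcon
    have h1 : vv v (τ (a : L)) = 1 := le_antisymm (int_le τ a) hcon.1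
    have h2 : vv v (τ (b : L)) = 1 := le_antisymm (int_le τ b) hcon.2
    rw [h1, h2, mul_one] at hab
    exact lt_irrefl _ hab

theorem ab_idl (τ : L →ₐ[F] v.adicCompletion F) : v.asIdeal.map (algebraMap (𝓞 F) (𝓞 L)) ≤ idl τ := by
  rw [Ideal.map_le_iff_le_comap]
  intro a ha
  rw [Ideal.mem_comap, mem_idl]
  have e1 : ((algebraMap (𝓞 F) (𝓞 L) a : 𝓞 L) : L) = algebraMap F L (a : F) := rfl
  rw [e1, AlgHom.commutes, vv_coe]
  exact (v.valuation_lt_one_iff_mem (K := F) a).2 ha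

/-- the prime of an embedding -/
noncomputable def pr (τ : L →ₐ[F] v.adicCompletion F) : HeightOneSpectrum (𝓞 L) where
  asIdeal := idl τ
  isPrime := idl_prime τ
  ne_bot := by
    intro h
    have h1 := ab_idl τ
    rw [h, le_bot_iff, Ideal.map_eq_bot_iff_of_injective] at h1
    · exact v.ne_bot h1
    · exact RingOfIntegers.algebraMap.injective F L

theorem ab_pr (τ : L →ₐ[F] v.adicCompletion F) : Ab v (pr τ) := ab_idl τ

theorem le_one_of {τ₁ τ₂ : L →ₐ[F] v.adicCompletion F} (h : pr τ₁ = pr τ₂) {x : L} (hx : vv v (τ₁ x) ≤ 1) :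
    vv v (τ₂ x) ≤ 1 := by
  have hmem : ∀ z : 𝓞 L, z ∈ (pr τ₁).asIdeal.primeCompl → vv v (τ₁ (z : L)) = 1 ∧ vv v (τ₂ (z : L)) = 1 := by
    intro z hz
    have h1 : ¬ vv v (τ₁ (z : L)) < 1 := hz
    have h2 : ¬ vv v (τ₂ (z : L)) < 1 := by
      have hz' : z ∈ (pr τ₂).asIdeal.primeCompl := by rw [← h]; exact hz
      exact hz'
    exact ⟨le_antisymm (int_le τ₁ z) (not_lt.1 h1), le_antisymm (int_le τ₂ z) (not_lt.1 h2)⟩
  obtain ⟨n, d, hnd⟩ := HeightOneSpectrum.exists_primeCompl_mul_eq_or_mul_eq (pr τ₁) x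
  obtain ⟨hd1, hd2⟩ := hmem d d.2
  rcases hnd with hnd | hnd
  · have h1 := congrArg (fun t => vv v (τ₂ t)) hnd
    simp only [map_mul] at h1
    have h2 : vv v (τ₂ (algebraMap (𝓞 L) L (d : 𝓞 L))) = 1 := hd2
    rw [h2, mul_one] at h1
    rw [h1]
    exact int_le τ₂ n
  · have h1 := congrArg (fun t => vv v (τ₁ t)) hnd
    simp only [map_mul] at h1
    have h2 : vv v (τ₁ (algebraMap (𝓞 L) L (d : 𝓞 L))) = 1 := hd1
    rw [h2] at h1
    have h3 : vv v (τ₁ (algebraMap (𝓞 L) L n)) ≤ 1 := int_le τ₁ n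
    have h4 : vv v (τ₁ (n : L)) = 1 := by
      refine le_antisymm (int_le τ₁ n) ?_
      rw [← h1]
      exact mul_le_of_le_one_left' hx
    have h5 : n ∈ (pr τ₁).asIdeal.primeCompl := by
      change ¬ vv v (τ₁ (n : L)) < 1
      rw [h4]
      exact lt_irrefl _
    obtain ⟨-, h6⟩ := hmem n h5
    have h7 := congrArg (fun t => vv v (τ₂ t)) hnd
    simp only [map_mul] at h7
    have h8 : vv v (τ₂ (algebraMap (𝓞 L) L (d : 𝓞 L))) = 1 := hd2
    have h9 : vv v (τ₂ (algebraMap (𝓞 L) L n)) = 1 := h6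
    rw [h8, h9, mul_one] at h7
    exact h7.le

theorem pr_injective : Function.Injective (pr : (L →ₐ[F] v.adicCompletion F) → HeightOneSpectrum (𝓞 L)) := by
  intro τ₁ τ₂ h
  refine AlgHom.ext fun x => ?_
  by_contra hne
  have hne' : τ₁ x - τ₂ x ≠ 0 := sub_ne_zero.2 hne
  have hv0 : vv v (τ₁ x - τ₂ x) ≠ 0 := (Valuation.ne_zero_iff _).2 hne'
  -- an element of `F` with this value
  obtain ⟨c, hc⟩ := v.valuation_surjective F (vv v (τ₁ x - τ₂ x))
  have hc0 : c ≠ 0 := by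
    rintro rfl
    rw [map_zero] at hc
    exact hv0 hc.symm
  obtain ⟨u, hu⟩ := v.valuation_exists_uniformizer F
  have hu0 : u ≠ 0 := by
    rintro rfl
    rw [map_zero] at hu
    exact (WithZero.exp_ne_zero hu.symm)
  have hu1 : v.valuation F u < 1 := by
    rw [hu, ← WithZero.exp_zero, WithZero.exp_lt_exp]
    norm_num
  set b : F := c * u with hb
  have hb0 : b ≠ 0 := mul_ne_zero hc0 hu0
  have hbv : v.valuation F b ≠ 0 := (Valuation.ne_zero_iff _).2 hb0
  have hblt : v.valuation F b < vv v (τ₁ x - τ₂ x) := by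
    rw [hb, map_mul, hc]
    exact mul_lt_of_lt_one_right (zero_lt_iff.2 hv0) hu1
  obtain ⟨y, hy⟩ := exists_approx v (τ₁ x) (v.valuation F b) hbv
  have h1 : ∀ τ : L →ₐ[F] v.adicCompletion F,
      vv v (τ ((algebraMap F L y - x) * algebraMap F L b⁻¹)) ≤ 1 ↔
        vv v (algebraMap F _ y - τ x) ≤ v.valuation F b := by
    intro τ
    rw [map_mul, map_sub, AlgHom.commutes, AlgHom.commutes, map_mul, vv_coe, map_inv₀]
    rw [← div_eq_mul_inv, div_le_one₀ (zero_lt_iff.2 hbv)]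
  have h2 := le_one_of h ((h1 τ₁).2 hy.le)
  rw [h1] at h2
  have h3 : τ₁ x - τ₂ x = (algebraMap F _ y - τ₂ x) - (algebraMap F _ y - τ₁ x) := by ring
  have h4 : vv v (τ₁ x - τ₂ x) ≤ v.valuation F b := by
    rw [h3]
    exact (Valuation.map_sub _ _ _).trans (max_le h2 hy.le)
  exact absurd hblt (not_lt.2 h4)

end

/-- JOB SPL -/
theorem spl : Pool.Agent.Q7.LK.S_CPL → S_SPL := by
  intro hCPL p hp hp2 F L _ _ _ _ _ ζ d hζ hK hd v hL
  obtain ⟨_, δ, hδ⟩ := (hCPL p F v d).1 hL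
  rw [cpl_coe] at hδ
  obtain ⟨τ⟩ := exists_emb hζ hK hd (E := v.adicCompletion F) hδ.symm
  obtain ⟨hgal, -⟩ := galois_cyclic hζ hK hd
  have hcard : Nat.card (L ≃ₐ[F] L) = p := by rw [IsGalois.card_aut_eq_finrank, hK.deg]
  have hfin : Finite (L ≃ₐ[F] L) := Nat.finite_of_card_ne_zero (by rw [hcard]; exact hp.out.ne_zero)
  let e : Fin p ≃ (L ≃ₐ[F] L) := (finCongr hcard.symm).trans (Finite.equivFin _).symm
  refine ⟨fun i => pr (τ.comp ((e i : L ≃ₐ[F] L) : L →ₐ[F] L)), ?_, fun i => ab_pr _⟩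
  intro i j hij
  have h1 := pr_injective hij
  apply e.injective
  ext x
  have h2 := DFunLike.congr_fun h1 x
  exact τ.toRingHom.injective h2

end Pool.Agent.Q77.LS
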